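import Pool.Agent.X187.IP.Main

/-!
# The absolutely continuous spectrum of the Anderson model does not see sparse large obstacles

`Δ_ω = -Δ + ω` on `ℓ²(ℤ^d)`, `ω_j` iid with any law of bounded support which is not a point mass,
for instance `P(ω_j = ±1) = 1/2`. Let `F_0, F_1, ...` be finite sets of sites, for instance larger
and larger cubes, and `A_0, A_1, ...` finite sets of allowed values. If the translates `z_k + F_k`
are sparse enough (each `z_k` avoids finitely many sites, which depend on `z_0, ..., z_{k-1}`), then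
almost surely, for every way of rewriting the potential on the translates with allowed values
at once, the new operator has exactly the same absolutely continuous spectrum as the Anderson model.
-/

set_option autoImplicit false

open MeasureTheory

namespace Pool.Agent.Results.MP_d0f69c_mp.InvisiblePotential

/-- The Hilbert space `ℓ²(ℤ^d)`. -/
def L2 (d : ℕ) : Type := lp (fun _ : Fin d → ℤ => ℂ) 2

/-- The `ℓ²` norm. -/
noncomputable instance instNorm (d : ℕ) : NormedAddCommGroup (L2 d) :=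
  @lp.normedAddCommGroup (Fin d → ℤ) (fun _ => ℂ) 2 _ _

/-- The `ℓ²` inner product. -/
noncomputable instance instInner (d : ℕ) : InnerProductSpace ℂ (L2 d) :=
  @lp.instInnerProductSpace (Fin d → ℤ) ℂ _ (fun _ => ℂ) _ _

/-- The underlying function of a vector of `ℓ²(ℤ^d)`. -/
def coord {d : ℕ} (u : L2 d) : (Fin d → ℤ) → ℂ := (show lp (fun _ : Fin d → ℤ => ℂ) 2 from u)

/-- Bounded linear operators on a complex inner product space. -/
abbrev Op (E : Type) [NormedAddCommGroup E] [InnerProductSpace ℂ E] : Type := E →L[ℂ] E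

/-- the operator of the problem, `(Δ_ω u)(j) = -∑_{|n|=1} (u(j+n) - u(j)) + ω_j u(j)` (the unit
vectors `n` are `± e_i`) -/
noncomputable def act {d : ℕ} (ω : (Fin d → ℤ) → ℝ) (u : (Fin d → ℤ) → ℂ) (j : Fin d → ℤ) : ℂ :=
  -(∑ i : Fin d, ((u (j + Pi.single i 1) - u j) + (u (j - Pi.single i 1) - u j))) + (ω j : ℂ) * u j

/-- The bounded operator `H` on `ℓ²(ℤ^d)` is `Δ_ω`. -/
def IsAnderson {d : ℕ} (ω : (Fin d → ℤ) → ℝ) (H : Op (L2 d)) : Prop :=
  ∀ u : L2 d, coord (H u) = act ω (coord u)

/-- `(H - z)⁻¹` -/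
noncomputable def res {E : Type} [NormedAddCommGroup E] [InnerProductSpace ℂ E] (H : Op E) (z : ℂ) :
    Op E :=
  Ring.inverse (H - z • (1 : Op E))

/-- `μ` is the spectral measure of `ψ`: a finite measure with Borel transform
`⟨ψ, (H - z)⁻¹ ψ⟩` off the real line. -/
def IsSpectralMeasure {E : Type} [NormedAddCommGroup E] [InnerProductSpace ℂ E]
    (H : Op E) (ψ : E) (μ : Measure ℝ) : Prop :=
  IsFiniteMeasure μ ∧ ∀ z : ℂ, z.im ≠ 0 →
    ∫ x, ((x : ℂ) - z)⁻¹ ∂μ = inner ℂ ψ (res H z ψ)

/-- `S` is the essential support of the absolutely continuous spectrum of `H`: a Borel set `B` is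
null on `S` if and only if all spectral measures are singular on `B`. (This determines the Borel
set `S` up to null sets.) -/
def IsACSupport {E : Type} [NormedAddCommGroup E] [InnerProductSpace ℂ E]
    (H : Op E) (S : Set ℝ) : Prop :=
  ∀ B : Set ℝ, MeasurableSet B →
    ((∀ (ψ : E) (μ : Measure ℝ), IsSpectralMeasure H ψ μ → (μ.restrict B) ⟂ₘ volume) ↔
      volume (B ∩ S) = 0)

/-- `H` has purely singular spectrum -/
def PurelySingular {E : Type} [NormedAddCommGroup E] [InnerProductSpace ℂ E] (H : Op E) : Prop :=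
  ∀ (ψ : E) (μ : Measure ℝ), IsSpectralMeasure H ψ μ → μ ⟂ₘ volume

/-- there is exactly one bounded operator `Δ_ω`, and the essential support of its absolutely
continuous spectrum is `S` -/
def HasACSupport {d : ℕ} (ω : (Fin d → ℤ) → ℝ) (S : Set ℝ) : Prop :=
  (∃! H : Op (L2 d), IsAnderson ω H) ∧ ∀ H : Op (L2 d), IsAnderson ω H → IsACSupport H S

/-- `ω'` is obtained from `ω` by rewriting the potential on the translates `z_k + F_k`, with values
in `A_k` -/
def IsRewriting {d : ℕ} (F : ℕ → Finset (Fin d → ℤ)) (A : ℕ → Finset ℝ) (z : ℕ → (Fin d → ℤ))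
    (ω ω' : (Fin d → ℤ) → ℝ) : Prop :=
  (∀ k, ∀ c ∈ F k, ω' (z k + c) ∈ A k) ∧ ∀ x, (∀ k, ∀ c ∈ F k, x ≠ z k + c) → ω' x = ω x

/-- the law of iid variables with law `ν` on `ℤ^d` -/
noncomputable def iid (d : ℕ) (ν : Measure ℝ) : Measure ((Fin d → ℤ) → ℝ) :=
  Measure.infinitePi fun _ => ν

/-- Let `d ≥ 1` and let `ν` be a law with bounded support which is not a point mass. There is a
Borel set `S` such that:

* for almost every iid potential `ω` with law `ν`, `S` is the essential support of the absolutely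
  continuous spectrum of `Δ_ω`;
* `S` is null if and only if `Δ_ω` has purely singular spectrum almost surely;
* for all finite sets of sites `F_0, F_1, ...` and all finite sets of values `A_0, A_1, ...` in a
  bounded interval there is a rule `R`, which assigns to each finite list of sites a finite set of
  sites, such that for every sequence `z_0, z_1, ...` with `z_k ∉ R(z_0, ..., z_{k-1})` for all `k`
  the following holds almost surely: for every potential `ω'` obtained from `ω` by rewriting it on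
  the translates `z_k + F_k` with values in `A_k`, the set `S` is the essential support of the
  absolutely continuous spectrum of `Δ_{ω'}`. -/
theorem result (d : ℕ) (hd : 1 ≤ d) (ν : Measure ℝ) [IsProbabilityMeasure ν]
    (hb : ∃ K : ℝ, ∀ᵐ v ∂ν, |v| ≤ K) (hν : ∀ r : ℝ, ν {r} ≠ 1) :
    ∃ S : Set ℝ, MeasurableSet S ∧
      (∀ᵐ ω ∂(iid d ν), HasACSupport ω S) ∧
      (volume S = 0 ↔ ∀ᵐ ω ∂(iid d ν), ∀ H : Op (L2 d), IsAnderson ω H → PurelySingular H) ∧
      ∀ (F : ℕ → Finset (Fin d → ℤ)) (A : ℕ → Finset ℝ), (∃ M : ℝ, ∀ k, ∀ a ∈ A k, |a| ≤ M) →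
        ∃ R : List (Fin d → ℤ) → Finset (Fin d → ℤ), ∀ z : ℕ → (Fin d → ℤ),
          (∀ k, z k ∉ R ((List.range k).map z)) →
            ∀ᵐ ω ∂(iid d ν), ∀ ω' : (Fin d → ℤ) → ℝ, IsRewriting F A z ω ω' →
              HasACSupport ω' S := by
  obtain ⟨S, hS, h1, h2⟩ := X187.IP.main hd ν hb hν
  have key : ∀ ω : (Fin d → ℤ) → ℝ, (∃ H0 : TH980.IM.L2 d →L[ℂ] TH980.IM.L2 d,
      TH980.IM.IsA ω H0 ∧ (∀ H' : TH980.IM.L2 d →L[ℂ] TH980.IM.L2 d, TH980.IM.IsA ω H' → H' = H0) ∧
      X187.IP.ACS H0 S) → HasACSupport ω S := by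
    rintro ω ⟨H0, g1, g2, g3⟩
    refine ⟨⟨H0, fun u => funext fun j => g1 u j, fun H hH => g2 H fun u j => congrFun (hH u) j⟩,
      fun H hH => ?_⟩
    have hHe : H = H0 := g2 H fun u j => congrFun (hH u) j
    subst hHe
    intro B hB
    refine Iff.trans ⟨fun h φ μ hμf hμ => h φ μ ⟨hμf, hμ⟩, fun h φ μ hμ => h φ μ hμ.1 hμ.2⟩
      (g3 B hB)
  have h3 : ∀ᵐ ω ∂(iid d ν), HasACSupport ω S := by
    filter_upwards [h1] with ω hω
    exact key ω hω
  have : IsProbabilityMeasure (iid d ν) := by unfold iid; infer_instance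
  refine ⟨S, hS, h3, ⟨fun h0 => ?_, fun h => ?_⟩, fun F A hM => ?_⟩
  · filter_upwards [h3] with ω hω H hH ψ μ hμ
    have h4 := (hω.2 H hH Set.univ MeasurableSet.univ).2 (by rw [Set.univ_inter]; exact h0) ψ μ hμ
    rwa [Measure.restrict_univ] at h4
  · obtain ⟨ω, h4, h5⟩ := (h3.and h).exists
    obtain ⟨H, hH, _⟩ := h4.1
    have h6 := (h4.2 H hH Set.univ MeasurableSet.univ).1 (fun ψ μ hμ => by
      rw [Measure.restrict_univ]
      exact h5 H hH ψ μ hμ)
    rwa [Set.univ_inter] at h6
  · obtain ⟨R, hR⟩ := h2 F A hM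
    refine ⟨R, fun z hz => ?_⟩
    filter_upwards [hR z hz] with ω hω ω' hω'
    exact key ω' (hω ω' hω'.1 hω'.2)

end Pool.Agent.Results.MP_d0f69c_mp.InvisiblePotential
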